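import Pool.Agent.CTL63.Corr
import Pool.Agent.CTL45.BetweenTerm

set_option autoImplicit false

/-!
# The operator with a catalyst `c` for the spike `b`
-/

namespace Pool.Agent.CTL63

open Pool.Agent.Helper60.Hit MvPolynomial Pool.Agent.CTL45 Pool.Agent.HitD5 Pool.Agent.SUC

variable {m : ℕ} {b c : Fin m} {t z : Fin m → ℕ}

theorem TB_hits' (b c : Fin m) {g : MvPolynomial (Fin m) (ZMod 2)} (hg : g ∈ hits m) :
    TB b c b g ∈ hits m := TB_hits b c b hg

/-- exponents below `3` at the spike are killed -/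
theorem TB_small (hbc : b ≠ c) (hz : z b < 3) : TB b c b (mono z) = 0 := by
  rw [TB_sum hbc]
  refine Finset.sum_eq_zero fun x hx => ?_
  rw [Finset.mem_product, Finset.mem_range, Finset.mem_range] at hx
  have h1 : z b = 2 := by omega
  have h2 : x.1 = 0 := by omega
  rw [h1, h2]
  have h3 : (((Nat.choose 2 (0 + 1) * (z c).choose (x.2 + 1) : ℕ)) :
      MvPolynomial (Fin m) (ZMod 2)) = 0 := by
    rw [CharP.cast_eq_zero_iff (MvPolynomial (Fin m) (ZMod 2)) 2]
    exact Dvd.dvd.mul_right (by norm_num) _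
  rw [h3, zero_mul]

/-- monomials without the catalyst are killed -/
theorem TB_nocat (hbc : b ≠ c) (hz : z c = 0) : TB b c b (mono z) = 0 := by
  rw [TB_sum hbc, hz, Finset.range_zero, Finset.product_empty, Finset.sum_empty]

/-- the general form of the terms -/
theorem TB_terms (hbc : b ≠ c) (N : Submodule (ZMod 2) (MvPolynomial (Fin m) (ZMod 2)))
    (h : ∀ i j : ℕ, 1 ≤ i → i < z b → 1 ≤ j → (z b).choose i % 2 = 1 → (z c).choose j % 2 = 1 →
      mono (tt b c b z i j) ∈ N) : TB b c b (mono z) ∈ N := by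
  rw [TB_sum hbc]
  refine Submodule.sum_mem _ fun x hx => ?_
  rw [Finset.mem_product, Finset.mem_range, Finset.mem_range] at hx
  rcases Nat.mod_two_eq_zero_or_one ((z b).choose (x.1 + 1) * (z c).choose (x.2 + 1)) with h0 | h1
  · have h3 : ((((z b).choose (x.1 + 1) * (z c).choose (x.2 + 1) : ℕ)) :
        MvPolynomial (Fin m) (ZMod 2)) = 0 := by
      rw [CharP.cast_eq_zero_iff (MvPolynomial (Fin m) (ZMod 2)) 2]
      exact Nat.dvd_of_mod_eq_zero h0
    rw [h3, zero_mul]
    exact Submodule.zero_mem _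
  · have h2 := Nat.odd_mul.mp (Nat.odd_iff.mpr h1)
    rw [odd_natCast _ h1, one_mul]
    exact h _ _ (by omega) (by omega) (by omega) (Nat.odd_iff.mp h2.1) (Nat.odd_iff.mp h2.2)

theorem tt_wt_lt (hbc : b ≠ c) {i j : ℕ} (hi : (z b).choose i % 2 = 1)
    (hj : (z c).choose j % 2 = 1) (h : LexLT (wt z) (wt t)) : NLT (tt b c b z i j) t :=
  Or.inl ((tt_le hbc hbc.symm z hi hj).trans_lt h)

theorem TB_wt (hbc : b ≠ c) (h : LexLT (wt z) (wt t)) : TB b c b (mono z) ∈ NN t :=
  TB_terms hbc _ fun _ _ _ _ _ hi hj => NN.small (tt_wt_lt hbc hi hj h)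

theorem nlt_of_le {y : Fin m → ℕ} (h1 : LexLE (wt y) (wt t)) (h2 : LexF y t) : NLT y t := by
  rcases h1 with h1 | h1
  · exact Or.inr ⟨h1, h2⟩
  · exact Or.inl h1

theorem tt_b (hbc : b ≠ c) (i j : ℕ) : tt b c b z i j b = i + j := by
  unfold tt off
  rw [Pi.add_apply, Pi.add_apply, Pi.add_apply, Pi.add_apply, Pi.single_eq_of_ne hbc,
    Pi.single_eq_same, Pi.single_eq_of_ne hbc, Pi.single_eq_same, if_pos (Or.inl rfl)]
  omega

/-- a difference before `c` and `b` is not touched -/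
theorem TB_front (hbc : b ≠ c) {f : Fin m} (hfb : f < b) (hfc : f < c) (hle : LexLE (wt z) (wt t))
    (hf : ∀ i < f, z i = t i) (hf' : z f < t f) : TB b c b (mono z) ∈ NN t := by
  refine TB_terms hbc _ fun i j _ _ _ hi hj => NN.small ?_
  refine nlt_of_le (LexLE.trans (tt_le hbc hbc.symm z hi hj) hle) ⟨f, fun l hl => ?_, ?_⟩
  · rw [tt_other (ne_of_lt (hl.trans hfb)) (ne_of_lt (hl.trans hfc)) (ne_of_lt (hl.trans hfb))]
    exact hf l hl
  · rw [tt_other (ne_of_lt hfb) (ne_of_lt hfc) (ne_of_lt hfb)]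
    exact hf'

/-- what happens at the catalyst when the spike exponent is `3` and nothing carries -/
theorem tt_cat (hbc : b ≠ c) {i j : ℕ} (hzb : z b = 3) (hi1 : 1 ≤ i) (hi2 : i < 3) (hj1 : 1 ≤ j)
    (hj : j ≤ z c) (h0 : ¬ (i % 2 = 1 ∧ j % 2 = 1)) :
    tt b c b z i j c ≤ z c ∧ (tt b c b z i j c = z c → i + j = 3) := by
  rw [tt_c hbc.symm, hzb]
  have : i = 1 ∨ i = 2 := by omega
  rcases this with rfl | rfl
  · have : j % 2 ≠ 1 := fun h => h0 ⟨by norm_num, h⟩
    omega
  · omega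

theorem tt_self (hbc : b ≠ c) {i j : ℕ} (hzb : z b = 3) (hi : i ≤ 3) (hj : j ≤ z c)
    (hij : i + j = 3) : tt b c b z i j = z := by
  funext l
  by_cases hlb : l = b
  · subst hlb; rw [tt_b hbc, hzb]; exact hij
  by_cases hlc : l = c
  · subst hlc; rw [tt_c hbc.symm, hzb]; omega
  rw [tt_other hlb hlc hlb]

/-- spike exponent `3`, a difference before `b`, not before `c` -/
theorem TB_three_lt (hbc : b ≠ c) {f : Fin m} (hcb : c < b) (hfb : f < b) (hzb : z b = 3)
    (hle : LexLE (wt z) (wt t)) (hf : ∀ i < f, z i = t i) (hf' : z f < t f) :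
    TB b c b (mono z) ∈ NN t := by
  rcases lt_or_ge f c with hfc | hfc
  · exact TB_front hbc hfb hfc hle hf hf'
  refine TB_terms hbc _ fun i j hi1 hi2 hj1 hi hj => NN.small ?_
  have hle' := LexLE.trans (tt_le hbc hbc.symm z hi hj) hle
  by_cases h0 : i % 2 = 1 ∧ j % 2 = 1
  · have h1 := tt_carry (s := 0) hbc hbc.symm z hi hj (by simpa using h0.1) (by simpa using h0.2)
    exact Or.inl (h1.trans_le hle)
  have hjc := (lucas_bits _ _ hj).1
  obtain ⟨h1, h2⟩ := tt_cat hbc hzb hi1 (by omega) hj1 hjc h0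
  refine nlt_of_le hle' ?_
  have hpre : ∀ l, l < c → tt b c b z i j l = z l := fun l hl =>
    tt_other (ne_of_lt (hl.trans hcb)) (ne_of_lt hl) (ne_of_lt (hl.trans hcb)) z i j
  rcases lt_or_eq_of_le h1 with h3 | h3
  · -- smaller at the catalyst
    refine ⟨c, fun l hl => ?_, ?_⟩
    · rw [hpre l hl]; exact hf l (lt_of_lt_of_le hl hfc)
    · rcases lt_or_eq_of_le hfc with h4 | h4
      · rw [← hf c h4]; exact h3
      · subst h4; exact h3.trans hf'
  · rw [tt_self hbc hzb (by omega) hjc (h2 h3)]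
    exact ⟨f, hf, hf'⟩

/-- spike exponent `3`, no difference before `b`: identity up to smaller monomials -/
theorem TB_three_eq (hbc : b ≠ c) (hcb : c < b) (hzb : z b = 3) (hle : LexLE (wt z) (wt t))
    (hf : ∀ i < b, z i = t i) (hc : t c % 4 = 1 ∨ t c % 4 = 2) :
    TB b c b (mono z) + mono z ∈ NN t := by
  classical
  have hzc : z c = t c := hf c hcb
  obtain ⟨i0, j0, hi0, hj0, hi2, hij, hjc, hodd⟩ : ∃ i j : ℕ, 1 ≤ i ∧ 1 ≤ j ∧ i < 3 ∧
      i + j = 3 ∧ j ≤ z c ∧ (z c).choose j % 2 = 1 := by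
    rw [hzc]
    rcases hc with h | h
    · refine ⟨2, 1, by norm_num, by norm_num, by norm_num, by norm_num, by omega, ?_⟩
      rw [Nat.choose_one_right]; omega
    · refine ⟨1, 2, by norm_num, by norm_num, by norm_num, by norm_num, by omega, ?_⟩
      rw [Nat.choose_two_right]
      obtain ⟨q, hq⟩ : ∃ q, t c = 4 * q + 2 := ⟨t c / 4, by omega⟩
      rw [hq]
      have : (4 * q + 2) * (4 * q + 2 - 1) / 2 = (2 * q + 1) * (4 * q + 1) := by
        apply Nat.div_eq_of_eq_mul_left (by norm_num)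
        have : 4 * q + 2 - 1 = 4 * q + 1 := by omega
        rw [this]; ring
      rw [this, Nat.mul_mod]
      have h1 : (2 * q + 1) % 2 = 1 := by omega
      have h2 : (4 * q + 1) % 2 = 1 := by omega
      rw [h1, h2]
  rw [TB_sum hbc, hzb]
  have hmem : (i0 - 1, j0 - 1) ∈ Finset.range (3 - 1) ×ˢ Finset.range (z c) := by
    rw [Finset.mem_product, Finset.mem_range, Finset.mem_range]
    exact ⟨by show i0 - 1 < 3 - 1; omega, by show j0 - 1 < z c; omega⟩
  rw [← Finset.add_sum_erase _ _ hmem]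
  have hmain : (((((3 : ℕ).choose ((i0 - 1, j0 - 1).1 + 1) *
      (z c).choose ((i0 - 1, j0 - 1).2 + 1) : ℕ)) : MvPolynomial (Fin m) (ZMod 2)) *
        mono (tt b c b z ((i0 - 1, j0 - 1).1 + 1) ((i0 - 1, j0 - 1).2 + 1))) = mono z := by
    have h1 : (i0 - 1, j0 - 1).1 + 1 = i0 := by show i0 - 1 + 1 = i0; omega
    have h2 : (i0 - 1, j0 - 1).2 + 1 = j0 := by show j0 - 1 + 1 = j0; omega
    rw [h1, h2, tt_self hbc hzb (by omega) hjc hij, odd_natCast, one_mul]
    rw [Nat.mul_mod, hodd]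
    have : i0 = 1 ∨ i0 = 2 := by omega
    rcases this with rfl | rfl <;> rfl
  rw [hmain, add_assoc, add_comm (Finset.sum _ _), ← add_assoc, CharTwo.add_self_eq_zero,
    zero_add]
  refine Submodule.sum_mem _ fun x hx => ?_
  rw [Finset.mem_erase, Finset.mem_product, Finset.mem_range, Finset.mem_range] at hx
  rcases Nat.mod_two_eq_zero_or_one ((3 : ℕ).choose (x.1 + 1) * (z c).choose (x.2 + 1))
    with h0 | h1
  · have h3 : ((((3 : ℕ).choose (x.1 + 1) * (z c).choose (x.2 + 1) : ℕ)) :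
        MvPolynomial (Fin m) (ZMod 2)) = 0 := by
      rw [CharP.cast_eq_zero_iff (MvPolynomial (Fin m) (ZMod 2)) 2]
      exact Nat.dvd_of_mod_eq_zero h0
    rw [h3, zero_mul]
    exact Submodule.zero_mem _
  rw [odd_natCast _ h1, one_mul]
  have h2 := Nat.odd_mul.mp (Nat.odd_iff.mpr h1)
  have hi := Nat.odd_iff.mp h2.1
  have hj := Nat.odd_iff.mp h2.2
  have hi' : (z b).choose (x.1 + 1) % 2 = 1 := by rw [hzb]; exact hi
  refine NN.small ?_
  have hle' := LexLE.trans (tt_le hbc hbc.symm z hi' hj) hle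
  by_cases h0 : (x.1 + 1) % 2 = 1 ∧ (x.2 + 1) % 2 = 1
  · have h1 := tt_carry (s := 0) hbc hbc.symm z hi' hj (by simpa using h0.1)
      (by simpa using h0.2)
    exact Or.inl (h1.trans_le hle)
  have hjc' := (lucas_bits _ _ hj).1
  obtain ⟨h4, h5⟩ := tt_cat hbc hzb (i := x.1 + 1) (j := x.2 + 1) (by omega) (by omega) (by omega)
    hjc' h0
  rcases lt_or_eq_of_le h4 with h6 | h6
  · refine nlt_of_le hle' ⟨c, fun l hl => ?_, ?_⟩
    · rw [tt_other (ne_of_lt (hl.trans hcb)) (ne_of_lt hl) (ne_of_lt (hl.trans hcb))]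
      exact hf l (hl.trans hcb)
    · rw [← hzc]; exact h6
  · exfalso
    apply hx.1
    have hsum := h5 h6
    obtain ⟨_, hb⟩ := lucas_bits _ _ hj
    obtain ⟨_, hb0⟩ := lucas_bits _ _ hodd
    have hx1 : x.1 + 1 = 1 ∨ x.1 + 1 = 2 := by omega
    have hi01 : i0 = 1 ∨ i0 = 2 := by omega
    have hb1 := hb 1
    have hb0' := hb 0
    have hc1 := hb0 1
    have hc0 := hb0 0
    simp only [pow_zero, pow_one, Nat.div_one] at hb1 hb0' hc1 hc0
    rw [hzc] at hb1 hb0' hc1 hc0
    ext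
    · show x.1 = i0 - 1
      rcases hx1 with h | h <;> rcases hi01 with h' | h'
      · omega
      · exfalso
        have e1 : x.2 + 1 = 2 := by omega
        have e2 : j0 = 1 := by omega
        rw [e1] at hb1; rw [e2] at hc0
        rcases hc with hc | hc <;> omega
      · exfalso
        have e1 : x.2 + 1 = 1 := by omega
        have e2 : j0 = 2 := by omega
        rw [e1] at hb0'; rw [e2] at hc1
        rcases hc with hc | hc <;> omega
      · omega
    · show x.2 = j0 - 1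
      rcases hx1 with h | h <;> rcases hi01 with h' | h'
      · omega
      · exfalso
        have e1 : x.2 + 1 = 2 := by omega
        have e2 : j0 = 1 := by omega
        rw [e1] at hb1; rw [e2] at hc0
        rcases hc with hc | hc <;> omega
      · exfalso
        have e1 : x.2 + 1 = 1 := by omega
        have e2 : j0 = 2 := by omega
        rw [e1] at hb0'; rw [e2] at hc1
        rcases hc with hc | hc <;> omega
      · omega

end Pool.Agent.CTL63
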