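import Pool.Agent.SUC.OpC2

set_option autoImplicit false

/-!
# Correction operators for the spike `w 1`

The operator `Lam TS + R Lam tone` proves admissibility as soon as `R` is zero on the terms whose
exponent at the spike is full and the identity on the others, up to hit polynomials and smaller
monomials.
-/

namespace Pool.Agent.CTL63

open Pool.Agent.Helper60.Hit MvPolynomial Pool.Agent.CTL45 Pool.Agent.HitD5 Pool.Agent.SUC

variable {n m k : ℕ} {w : ℕ → Fin (n + 1)} {e e0 : Fin (n + 1) → ℕ}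
  {Lam : MvPolynomial (Fin (n + 1)) (ZMod 2) →ₗ[ZMod 2] MvPolynomial (Fin m) (ZMod 2)}
  {R : MvPolynomial (Fin m) (ZMod 2) →ₗ[ZMod 2] MvPolynomial (Fin m) (ZMod 2)}
  {t : Fin m → ℕ}

/-- hit polynomials and monomials smaller than `t` -/
noncomputable def NN (t : Fin m → ℕ) : Submodule (ZMod 2) (MvPolynomial (Fin m) (ZMod 2)) :=
  hits m ⊔ msp (fun y => NLT y t)

theorem NN.small {y : Fin m → ℕ} (h : NLT y t) : mono y ∈ NN t :=
  Submodule.mem_sup_right (mono_mem_msp h)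

theorem NN.ofmsp {f : MvPolynomial (Fin m) (ZMod 2)} (h : f ∈ msp (fun y => NLT y t)) :
    f ∈ NN t := Submodule.mem_sup_right h

theorem NN.ofhits {f : MvPolynomial (Fin m) (ZMod 2)} (h : f ∈ hits m) : f ∈ NN t :=
  Submodule.mem_sup_left h

/-- the properties of a correction operator `R`; `p = w 0` is the new place, `q = w 1` the spike -/
structure Corr (k : ℕ) (p q : Fin (n + 1)) (e0 : Fin (n + 1) → ℕ)
    (Lam : MvPolynomial (Fin (n + 1)) (ZMod 2) →ₗ[ZMod 2] MvPolynomial (Fin m) (ZMod 2))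
    (R : MvPolynomial (Fin m) (ZMod 2) →ₗ[ZMod 2] MvPolynomial (Fin m) (ZMod 2))
    (t : Fin m → ℕ) : Prop where
  hitsL : ∀ g ∈ hits (n + 1), Lam g ∈ hits m
  hitsR : ∀ g ∈ hits (n + 1), R (Lam g) ∈ NN t
  full : Lam (mono e0) = mono t
  nlt : ∀ f ∈ msp (fun z => NLT z e0), Lam f ∈ msp (fun y => NLT y t)
  RL : ∀ z : Fin (n + 1) → ℕ, z q = 2 ^ (k + 2) - 1 →
    ((∀ i < q, i ≠ p → z i = e0 i) ∨
      ∃ f < q, p < f ∧ (∀ i < f, i ≠ p → z i = e0 i) ∧ z f < e0 f) →
    LexLE (wt z) (wt e0) → R (Lam (mono z)) ∈ NN t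
  RS : ∀ z : Fin (n + 1) → ℕ, z q < 2 ^ (k + 2) - 1 → (∀ i < p, z i = e0 i) →
    LexLE (wt z) (wt e0) → Lam (mono z) + R (Lam (mono z)) ∈ NN t
  RP : ∀ (z : Fin (n + 1) → ℕ) (f : Fin (n + 1)), f < p → (∀ i < f, z i = e0 i) → z f < e0 f →
    LexLE (wt z) (wt e0) → R (Lam (mono z)) ∈ NN t
  RW : ∀ z : Fin (n + 1) → ℕ, LexLT (wt z) (wt e0) → R (Lam (mono z)) ∈ NN t

/-- the operator -/
noncomputable def psr (w : ℕ → Fin (n + 1)) (k : ℕ)
    (Lam : MvPolynomial (Fin (n + 1)) (ZMod 2) →ₗ[ZMod 2] MvPolynomial (Fin m) (ZMod 2))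
    (R : MvPolynomial (Fin m) (ZMod 2) →ₗ[ZMod 2] MvPolynomial (Fin m) (ZMod 2)) :
    MvPolynomial (Fin (n + 1)) (ZMod 2) →ₗ[ZMod 2] MvPolynomial (Fin m) (ZMod 2) :=
  Lam ∘ₗ TS w (k + 2) 1 + R ∘ₗ Lam ∘ₗ tone w (k + 2)

theorem psr_apply (f : MvPolynomial (Fin (n + 1)) (ZMod 2)) :
    psr w k Lam R f = Lam (TS w (k + 2) 1 f) + R (Lam (tone w (k + 2) f)) := rfl

theorem psr_hits (C : Corr k (w 0) (w 1) e0 Lam R t)
    {g : MvPolynomial (Fin (n + 1)) (ZMod 2)} (hg : g ∈ hits (n + 1)) :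
    psr w k Lam R g ∈ NN t := by
  rw [psr_apply]
  exact Submodule.add_mem _ (NN.ofhits (C.hitsL _ (TS_hits w _ _ hg))) (C.hitsR _ (tone_hits hg))

/-- transport of a property of the terms of `tone` -/
theorem RTr (h : Inc w (k + 2)) (y : Fin (n + 1) → ℕ)
    (G : MvPolynomial (Fin (n + 1)) (ZMod 2) →ₗ[ZMod 2] MvPolynomial (Fin m) (ZMod 2))
    (N : Submodule (ZMod 2) (MvPolynomial (Fin m) (ZMod 2)))
    (hN : ∀ z : Fin (n + 1) → ℕ, (∀ i < w 1, i ≠ w 0 → z i = y i) → z (w 1) = y (w 0) →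
      LexLE (wt z) (wt y) → G (mono z) ∈ N) :
    G (tone w (k + 2) (mono y)) ∈ N :=
  map_msp G N (fun z hz => hN z hz.1 hz.2.1 hz.2.2) (tone_mem h (by omega) y)

theorem psr_full (S : Wk w (k + 2) 1 e e0) (C : Corr k (w 0) (w 1) e0 Lam R t) :
    psr w k Lam R (mono e) + mono t ∈ NN t := by
  have e1 : psr w k Lam R (mono e) + mono t =
      Lam (TS w (k + 2) 1 (mono e) + mono e0) + R (Lam (tone w (k + 2) (mono e))) := by
    rw [map_add, C.full, psr_apply, add_right_comm]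
  rw [e1]
  refine Submodule.add_mem _ (NN.ofmsp (C.nlt _ S.full)) ?_
  refine RTr S.inc e (R ∘ₗ Lam) _ fun z hz1 hz2 hz3 => ?_
  refine C.RL z ?_ (Or.inl fun i hi hi0 => ?_) ?_
  · rw [hz2, S.he 0 (by omega)]
  · rw [hz1 i hi hi0, e0_low S hi hi0]
  · rw [S.hwt]; exact hz3

theorem psr_low (S : Wk w (k + 2) 1 e e0) (C : Corr k (w 0) (w 1) e0 Lam R t)
    {y : Fin (n + 1) → ℕ} (hy : MonLT y e) :
    psr w k Lam R (mono y) ∈ NN t := by
  have hpq : w 0 < w 1 := S.inc 0 1 (by omega) (by omega)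
  have hep : e (w 0) = 2 ^ (k + 2) - 1 := S.he 0 (by omega)
  rw [psr_apply]
  rcases hy.2 with hlt | ⟨hweq, f, hf, hf'⟩
  · refine Submodule.add_mem _ (NN.ofmsp (C.nlt _ ?_)) ?_
    · rw [TS_mono S.inc 1 (by omega)]
      refine Submodule.sum_mem _ fun l hl => summand_mem fun c hc => ?_
      rw [Finset.mem_range] at hl
      refine Or.inl ?_
      rw [S.hwt]
      exact (term_le S.inc (by omega) hc).trans_lt hlt
    · refine RTr S.inc y (R ∘ₗ Lam) _ fun z hz1 hz2 hz3 => ?_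
      refine C.RW z ?_
      rw [S.hwt]
      exact hz3.trans_lt hlt
  · rcases lt_trichotomy f (w 0) with h | h | h
    · refine Submodule.add_mem _ (NN.ofmsp (C.nlt _ ?_)) ?_
      · refine msp_mono (fun z hz => ?_) (S.TAY hy)
        rcases hz with hz | hz
        · exact hz
        · exfalso
          obtain ⟨-, j, hj, -, -, -, hj4⟩ := hz
          have hj0 : j = 0 := by omega
          subst hj0
          rcases hj4 f h with h5 | ⟨m, hm, -⟩
          · rw [h5, e0_low S (h.trans hpq) (ne_of_lt h)] at hf'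
            exact absurd hf' (lt_irrefl _)
          · exact absurd hm (Nat.not_lt_zero m)
      · refine RTr S.inc y (R ∘ₗ Lam) _ fun z hz1 hz2 hz3 => ?_
        refine C.RP z f h (fun i hi => ?_) ?_ ?_
        · have hi2 := hi.trans h
          rw [hz1 i (hi2.trans hpq) (ne_of_lt hi2), hf i hi,
            e0_low S (hi2.trans hpq) (ne_of_lt hi2)]
        · rw [hz1 f (h.trans hpq) (ne_of_lt h), e0_low S (h.trans hpq) (ne_of_lt h)]
          exact hf'
        · rw [S.hwt, ← hweq]; exact hz3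
    · subst h
      have hT0 : TS w (k + 2) 1 (mono y) = tone w (k + 2) (mono y) := by
        rw [TS_one S.inc (by omega), Cr_eq_zero, zero_mul, zero_add]
        rw [S.inc.card_MM, Nat.sub_zero, ← hep]
        exact hf'
      rw [hT0]
      refine RTr S.inc y (Lam + R ∘ₗ Lam) _ fun z hz1 hz2 hz3 => ?_
      refine C.RS z ?_ (fun i hi => ?_) ?_
      · rw [hz2, ← hep]; exact hf'
      · rw [hz1 i (hi.trans hpq) (ne_of_lt hi), hf i hi, e0_low S (hi.trans hpq) (ne_of_lt hi)]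
      · rw [S.hwt, ← hweq]; exact hz3
    · have hyp : y (w 0) = 2 ^ (k + 2) - 1 := by rw [hf _ h, hep]
      refine Submodule.add_mem _ (NN.ofmsp (C.nlt _ ?_)) ?_
      · refine msp_mono (fun z hz => ?_) (S.TAY hy)
        rcases hz with hz | hz
        · exact hz
        · exfalso
          obtain ⟨-, j, hj, -, -, hj2, -⟩ := hz
          have hj0 : j = 0 := by omega
          subst hj0
          omega
      · refine RTr S.inc y (R ∘ₗ Lam) _ fun z hz1 hz2 hz3 => ?_
        refine C.RL z ?_ ?_ ?_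
        · rw [hz2, hyp]
        · rcases lt_or_ge f (w 1) with hf1 | hf1
          · refine Or.inr ⟨f, hf1, h, fun i hi hi0 => ?_, ?_⟩
            · rw [hz1 i (hi.trans hf1) hi0, hf i hi, e0_low S (hi.trans hf1) hi0]
            · rw [hz1 f hf1 (ne_of_gt h), e0_low S hf1 (ne_of_gt h)]
              exact hf'
          · refine Or.inl fun i hi hi0 => ?_
            rw [hz1 i hi hi0, hf i (lt_of_lt_of_le hi hf1), e0_low S hi hi0]
        · rw [S.hwt, ← hweq]; exact hz3

/-- a correction operator gives admissibility -/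
theorem Corr.adm (S : Wk w (k + 2) 1 e e0) (C : Corr k (w 0) (w 1) e0 Lam R t) (h : Adm t) :
    Adm e :=
  adm_transport (psr w k Lam R) (fun _ hg => psr_hits C hg) (psr_full S C)
    (fun _ hy => psr_low S C hy) h

end Pool.Agent.CTL63
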