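import Pool.Agent.CTL63.Cat

set_option autoImplicit false

/-!
# Catalysts one binary level above the full levels
-/

namespace Pool.Agent.CTL63

open Pool.Agent.Helper60.Hit MvPolynomial Pool.Agent.CTL45 Pool.Agent.HitD5 Pool.Agent.SUC

variable {n k : ℕ} {w : ℕ → Fin (n + 1)} {e e0 : Fin (n + 1) → ℕ}

theorem div_three {k x : ℕ} (h : x = 2 ^ (k + 2) - 1) : x / 2 ^ k = 3 := by
  have h1 := Nat.one_le_two_pow (n := k)
  rw [h, pow_add, Nat.div_eq_iff (by omega)]
  omega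

theorem div_lt_three {k x : ℕ} (hx : x % 2 ^ k = 2 ^ k - 1) (h : x < 2 ^ (k + 2) - 1) :
    x / 2 ^ k < 3 := by
  have h6 := Nat.div_add_mod x (2 ^ k)
  have h7 := Nat.one_le_two_pow (n := k)
  by_contra hcon
  push Not at hcon
  have h8 := Nat.mul_le_mul_left (2 ^ k) hcon
  rw [pow_add] at h
  omega

/-- the correction operator of a catalyst -/
theorem corr_cat {m : ℕ} {p q c : Fin (n + 1)} {D : Finset (Fin (n + 1))} {ι : Fin m → Fin (n + 1)}
    {Λ : MvPolynomial (Fin (n + 1)) (ZMod 2) →ₗ[ZMod 2] MvPolynomial (Fin m) (ZMod 2)}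
    (V : Sv k e0 D ι Λ) (ht : Kept k e0 D e0) (hpD : p ∈ D) (hpq : p < q)
    {b cc : Fin m} (hb : ι b = q) (hcc : ι cc = c) (hcq : c < q)
    (hc : e0 c / 2 ^ k % 4 = 1 ∨ e0 c / 2 ^ k % 4 = 2)
    (hloc : p < c ∨ (e0 c / 2 ^ k = 1 ∧ ∀ i, c < i → i < p → i ∈ D)) :
    Corr k p q e0 Λ (TB b cc b + LinearMap.id) (fun j => e0 (ι j) / 2 ^ k) := by
  have hcb : cc < b := by
    rw [← V.strict.lt_iff_lt, hb, hcc]; exact hcq
  have hbc : b ≠ cc := ne_of_gt hcb
  have hip : ∀ j, ι j ≠ p := by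
    intro j hj
    exact V.out j (by rw [hj]; exact hpD)
  have hR : ∀ g, (TB b cc b + LinearMap.id : MvPolynomial (Fin m) (ZMod 2) →ₗ[ZMod 2]
      MvPolynomial (Fin m) (ZMod 2)) g = TB b cc b g + g := fun g => rfl
  have hfD : ∀ (z : Fin (n + 1) → ℕ) (f : Fin (n + 1)), Kept k e0 D z → z f < e0 f →
      ∃ f', ι f' = f ∧ z (ι f') / 2 ^ k < e0 (ι f') / 2 ^ k := by
    intro z f hz hf
    have h1 : f ∉ D := by
      intro hmem
      rw [hz.1 f hmem] at hf
      exact absurd hf (lt_irrefl _)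
    obtain ⟨f', rfl⟩ := (V.range f).mp h1
    exact ⟨f', rfl, div_lt_of_mod (hz.2 _ h1) (ht.2 _ h1) hf⟩
  refine ⟨fun g hg => V.hits_mem g hg, fun g hg => ?_, V.pos e0 ht, fun f hf => ?_, ?_, ?_, ?_, ?_⟩
  · rw [hR]
    exact NN.ofhits (Submodule.add_mem _ (TB_hits b cc b (V.hits_mem g hg)) (V.hits_mem g hg))
  · exact V.msp_nlt ht hf
  · -- RL
    intro z hzq hpre hle
    rw [hR]
    by_cases hz : Kept k e0 D z
    · rw [V.pos z hz]
      have hle' := V.le ht hz hle
      have hzb : (fun j => z (ι j) / 2 ^ k) b = 3 := by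
        show z (ι b) / 2 ^ k = 3
        rw [hb]; exact div_three hzq
      rcases hpre with hpre | ⟨f, hfq, hfp, hf, hf'⟩
      · refine TB_three_eq hbc hcb hzb hle' (fun i hi => ?_) ?_
        · show z (ι i) / 2 ^ k = e0 (ι i) / 2 ^ k
          rw [hpre _ (by rw [← hb]; exact V.strict hi) (hip i)]
        · show e0 (ι cc) / 2 ^ k % 4 = 1 ∨ e0 (ι cc) / 2 ^ k % 4 = 2
          rw [hcc]; exact hc
      · obtain ⟨f', rfl, hlt⟩ := hfD z f hz hf'
        have hfb : f' < b := by rw [← V.strict.lt_iff_lt, hb]; exact hfq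
        have hf1 : ∀ i < f', z (ι i) / 2 ^ k = e0 (ι i) / 2 ^ k := fun i hi => by
          rw [hf _ (V.strict hi) (hip i)]
        refine Submodule.add_mem _ (TB_three_lt hbc hcb hfb hzb hle' hf1 hlt) (NN.small ?_)
        exact nlt_of_le hle' ⟨f', hf1, hlt⟩
    · rw [V.neg z hz, map_zero, add_zero]; exact Submodule.zero_mem _
  · -- RS
    intro z hzq _ _
    rw [hR]
    by_cases hz : Kept k e0 D z
    · rw [V.pos z hz, TB_small hbc, zero_add, CharTwo.add_self_eq_zero]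
      · exact Submodule.zero_mem _
      · show z (ι b) / 2 ^ k < 3
        have h1 := hz.2 _ (V.out b)
        rw [hb] at h1 ⊢
        exact div_lt_three h1 hzq
    · rw [V.neg z hz, map_zero, add_zero, add_zero]; exact Submodule.zero_mem _
  · -- RP
    intro z f hfp hf hf' hle
    rw [hR]
    by_cases hz : Kept k e0 D z
    · rw [V.pos z hz]
      have hle' := V.le ht hz hle
      obtain ⟨f', rfl, hlt⟩ := hfD z f hz hf'
      have hfb : f' < b := by rw [← V.strict.lt_iff_lt, hb]; exact hfp.trans hpq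
      have hf1 : ∀ i < f', z (ι i) / 2 ^ k = e0 (ι i) / 2 ^ k := fun i hi => by
        rw [hf _ (V.strict hi)]
      refine Submodule.add_mem _ ?_ (NN.small (nlt_of_le hle' ⟨f', hf1, hlt⟩))
      rcases hloc with h | ⟨h1, h2⟩
      · refine TB_front hbc hfb ?_ hle' hf1 hlt
        rw [← V.strict.lt_iff_lt, hcc]; exact hfp.trans h
      · rcases lt_trichotomy f' cc with h3 | h3 | h3
        · exact TB_front hbc hfb h3 hle' hf1 hlt
        · subst h3
          rw [TB_nocat hbc]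
          · exact Submodule.zero_mem _
          · show z (ι f') / 2 ^ k = 0
            have h5 : e0 (ι f') / 2 ^ k = 1 := by rw [hcc]; exact h1
            rw [h5] at hlt
            exact Nat.lt_one_iff.mp hlt
        · exfalso
          refine V.out f' (h2 _ ?_ hfp)
          rw [← hcc]; exact V.strict h3
    · rw [V.neg z hz, map_zero, add_zero]; exact Submodule.zero_mem _
  · -- RW
    intro z hlt
    rw [hR]
    by_cases hz : Kept k e0 D z
    · rw [V.pos z hz]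
      have hlt' := V.lt ht hz hlt
      exact Submodule.add_mem _ (TB_wt hbc hlt') (NN.small (Or.inl hlt'))
    · rw [V.neg z hz, map_zero, add_zero]; exact Submodule.zero_mem _

/-- catalysts at the level `k`: all exponents are congruent to `-1` modulo `2 ^ k` or small spikes,
`r = k + 2`, `u = 1`; some variable between the new place and the spike has halved exponent `1` or
`2` modulo `4`, or the last variable before the new place that is not small has halved exponent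
`1` -/
theorem cat_adm (S : Wk w (k + 2) 1 e e0)
    (h : ∀ i, i ≠ w 0 → e0 i % 2 ^ k = 2 ^ k - 1 ∨ ∃ a ≤ k, e0 i = 2 ^ a - 1)
    (hc : (∃ c, w 0 < c ∧ c < w 1 ∧ (e0 c / 2 ^ k % 4 = 1 ∨ e0 c / 2 ^ k % 4 = 2)) ∨
      (∃ c, c < w 0 ∧ e0 c / 2 ^ k = 1 ∧ ∀ i, c < i → i < w 0 → ∃ a ≤ k, e0 i = 2 ^ a - 1))
    (hadm : Adm e0) : Adm e := by
  have hpq : w 0 < w 1 := S.inc 0 1 (by omega) (by omega)
  have h00 : e0 (w 0) = 0 := S.e0_eq_zero
  have hw1 : e0 (w 1) = 2 ^ (k + 2) - 1 := S.e0_w (j := 0) (by omega)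
  have ht := kept_dd h00 h
  obtain ⟨m, ι, Λ, V⟩ := exists_sv k e0 (dd k e0) (fun i hi => mem_dd.mp hi) ht.2
  have hp : w 0 ∈ dd k e0 := mem_dd.mpr ⟨0, Nat.zero_le k, by rw [h00]; rfl⟩
  have hbD : w 1 ∉ dd k e0 := fun hh => not_small (show k < k + 2 by omega) hw1 (mem_dd.mp hh)
  obtain ⟨b, hb⟩ := (V.range _).mp hbD
  have hbig : ∀ c, e0 c / 2 ^ k ≠ 0 → c ∉ dd k e0 := by
    intro c hne hmem
    obtain ⟨a, ha, ha'⟩ := mem_dd.mp hmem
    apply hne
    have h1 : 2 ^ a ≤ 2 ^ k := Nat.pow_le_pow_right (by norm_num) ha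
    have h2 := Nat.one_le_two_pow (n := a)
    exact Nat.div_eq_of_lt (by omega)
  rcases hc with ⟨c, hc1, hc2, hc3⟩ | ⟨c, hc1, hc2, hc3⟩
  · obtain ⟨cc, hcc⟩ := (V.range _).mp (hbig c (by omega))
    exact Corr.adm S (corr_cat V ht hp hpq hb hcc hc2 hc3 (Or.inl hc1)) (V.adm hadm)
  · obtain ⟨cc, hcc⟩ := (V.range _).mp (hbig c (by omega))
    exact Corr.adm S (corr_cat V ht hp hpq hb hcc (hc1.trans hpq) (Or.inl (by omega))
      (Or.inr ⟨hc2, fun i hi1 hi2 => mem_dd.mpr (hc3 i hi1 hi2)⟩)) (V.adm hadm)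

end Pool.Agent.CTL63
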